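import Mathlib

/-!
# MP_9cfc50_lc, Q1: even feedback vertex sets bound the number of regular models

If `U` meets every even cycle of the atom dependency graph of a finite ground normal program,
tight or not, then the program has at most `2 ^ |U|` regular models.
-/

set_option autoImplicit false

namespace Pool.Agent.Results.MP_9cfc50_lc.RegularModels

/-- The three truth values `0, 1/2, 1` are represented by `0, 1, 2 : Fin 3`, in the truth order. -/
abbrev V3 := Fin 3

/-- Negation `x ↦ 1 - x`. -/
def neg3 (x : V3) : V3 := Fin.rev x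

/-- A ground rule `head ← pos, ¬ neg`. -/
structure Rule (A : Type) where
  /-- the head -/
  head : A
  /-- atoms occurring positively in the body -/
  pos : Finset A
  /-- atoms occurring negated in the body -/
  neg : Finset A

/-- A finite ground normal program over the Herbrand base `A`. -/
abbrev Program (A : Type) := Set (Rule A)

/-- A three-valued interpretation. -/
abbrev Interp (A : Type) := A → V3

section

variable {A : Type}

/-- The value of the body of `r` in the reduct by `I`, under the interpretation `J`: the minimum of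
the values `J b` for positive `b` and of the constants `1 - I c` for negated `c` (and `1` if the
body is empty). -/
def body (I J : Interp A) (r : Rule A) : V3 :=
  min (r.pos.inf J) (r.neg.inf fun c => neg3 (I c))

/-- `J` is a three-valued model of the reduct `P ^ I`. -/
def IsModel (P : Program A) (I J : Interp A) : Prop :=
  ∀ r ∈ P, body I J r ≤ J r.head

/-- `J` is the least three-valued model of the reduct `P ^ I` in the truth order. -/
def IsLeastModel (P : Program A) (I J : Interp A) : Prop :=
  IsModel P I J ∧ ∀ K, IsModel P I K → ∀ a, J a ≤ K a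

/-- Stable partial models. -/
def Stable (P : Program A) (I : Interp A) : Prop := IsLeastModel P I I

/-- The information order. -/
def InfoLE (I J : Interp A) : Prop := ∀ a, I a ≠ 1 → J a = I a

/-- Regular models: stable partial models maximal in the information order among the stable
partial models. -/
def Regular (P : Program A) (I : Interp A) : Prop :=
  Stable P I ∧ ∀ J, Stable P J → InfoLE I J → InfoLE J I

/-- The atom dependency graph: there is an arc from `u` to `v` of sign `s` (`true` for positive
arcs and `false` for negative arcs). -/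
def Arc (P : Program A) (s : Bool) (u v : A) : Prop :=
  ∃ r ∈ P, r.head = v ∧ (if s then u ∈ r.pos else u ∈ r.neg)

/-- A cycle of the atom dependency graph: `n ≥ 1` distinct vertices `v 0, …, v (n-1)` with arcs of
sign `s i` from `v i` to `v (i+1)`, indices modulo `n`. -/
structure Cycle (P : Program A) where
  /-- the length -/
  n : ℕ
  pos : 0 < n
  /-- the vertices -/
  v : ℕ → A
  /-- the signs -/
  s : ℕ → Bool
  inj : ∀ i j, i < n → j < n → v i = v j → i = j
  closed : v n = v 0
  arc : ∀ i, i < n → Arc P (s i) (v i) (v (i + 1))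

/-- A cycle is even if it has an even number of negative arcs. -/
def Cycle.Even {P : Program A} (C : Cycle P) : Prop :=
  _root_.Even ((Finset.range C.n).filter fun i => C.s i = false).card

/-- `U` meets every even cycle. -/
def MeetsEven (P : Program A) (U : Finset A) : Prop :=
  ∀ C : Cycle P, C.Even → ∃ i, i < C.n ∧ C.v i ∈ U

theorem body_le_pos (I J : Interp A) (r : Rule A) {b : A} (hb : b ∈ r.pos) :
    body I J r ≤ J b :=
  (min_le_left _ _).trans (Finset.inf_le hb)

theorem body_le_neg (I J : Interp A) (r : Rule A) {c : A} (hc : c ∈ r.neg) :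
    body I J r ≤ neg3 (I c) :=
  (min_le_right _ _).trans (Finset.inf_le (f := fun c => neg3 (I c)) hc)

theorem le_body (I J : Interp A) (r : Rule A) {x : V3} (h1 : ∀ b ∈ r.pos, x ≤ J b)
    (h2 : ∀ c ∈ r.neg, x ≤ neg3 (I c)) : x ≤ body I J r :=
  le_min (Finset.le_inf h1) (Finset.le_inf h2)

theorem body_mono (I : Interp A) {J K : Interp A} (r : Rule A) (h : ∀ a, J a ≤ K a) :
    body I J r ≤ body I K r :=
  le_body _ _ _ (fun _ hb => (body_le_pos I J r hb).trans (h _))
    (fun _ hc => body_le_neg I J r hc)

/-- The least model of the reduct. -/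
noncomputable def Gam (P : Program A) (I : Interp A) : Interp A := fun a => by
  classical
  exact (Finset.univ.filter fun x : V3 => ∃ J, IsModel P I J ∧ J a = x).inf id

theorem gam_le (P : Program A) (I J : Interp A) (h : IsModel P I J) (a : A) :
    Gam P I a ≤ J a := by
  classical
  unfold Gam
  refine Finset.inf_le (f := id) ?_
  simp only [Finset.mem_filter, Finset.mem_univ, true_and]
  exact ⟨J, h, rfl⟩

theorem le_gam (P : Program A) (I : Interp A) (a : A) (x : V3)
    (h : ∀ J, IsModel P I J → x ≤ J a) : x ≤ Gam P I a := by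
  classical
  unfold Gam
  refine Finset.le_inf ?_
  intro y hy
  simp only [Finset.mem_filter, Finset.mem_univ, true_and] at hy
  obtain ⟨J, hJ, rfl⟩ := hy
  exact h J hJ

theorem gam_least (P : Program A) (I : Interp A) : IsLeastModel P I (Gam P I) := by
  refine ⟨fun r hr => ?_, fun K hK a => gam_le P I K hK a⟩
  refine le_gam _ _ _ _ fun J hJ => ?_
  exact (body_mono I r (fun a => gam_le P I J hJ a)).trans (hJ r hr)

theorem least_unique {P : Program A} {I J K : Interp A} (h1 : IsLeastModel P I J)
    (h2 : IsLeastModel P I K) : J = K :=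
  funext fun a => le_antisymm (h1.2 K h2.1 a) (h2.2 J h1.1 a)

theorem stable_iff (P : Program A) (I : Interp A) : Stable P I ↔ Gam P I = I :=
  ⟨fun h => least_unique (gam_least P I) h, fun h => by
    have := gam_least P I
    rw [h] at this
    exact this⟩

theorem v3_cases (x : V3) : x = 0 ∨ x = 1 ∨ x = 2 := by
  revert x; decide

theorem neg3_two {x : V3} : neg3 x = 2 ↔ x = 0 := by
  revert x; decide

theorem neg3_zero {x : V3} : neg3 x = 0 ↔ x = 2 := by
  revert x; decide

theorem le_one_of_ne_two {x : V3} (h : x ≠ 2) : x ≤ 1 := by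
  revert x; decide

theorem eq_two_of_two_le {x : V3} (h : 2 ≤ x) : x = 2 := by
  revert x; decide

theorem body_eq_two {I J : Interp A} {r : Rule A} :
    body I J r = 2 ↔ (∀ b ∈ r.pos, J b = 2) ∧ (∀ c ∈ r.neg, I c = 0) := by
  constructor
  · intro h
    refine ⟨fun b hb => eq_two_of_two_le (h ▸ body_le_pos I J r hb), fun c hc => ?_⟩
    exact neg3_two.1 (eq_two_of_two_le (h ▸ body_le_neg I J r hc))
  · rintro ⟨h1, h2⟩
    refine eq_two_of_two_le (le_body _ _ _ (fun b hb => (h1 b hb).ge) (fun c hc => ?_))
    exact (neg3_two.2 (h2 c hc)).ge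

theorem body_eq_zero {I J : Interp A} {r : Rule A} :
    body I J r = 0 ↔ (∃ b ∈ r.pos, J b = 0) ∨ (∃ c ∈ r.neg, I c = 2) := by
  constructor
  · intro h
    by_contra hcon
    push Not at hcon
    have h1 : (1 : V3) ≤ body I J r := by
      refine le_body _ _ _ (fun b hb => ?_) (fun c hc => ?_)
      · have := hcon.1 b hb
        revert this
        generalize J b = x
        revert x; decide
      · have := hcon.2 c hc
        revert this
        generalize I c = x
        revert x; decide
    rw [h] at h1
    exact absurd h1 (by decide)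
  · rintro (⟨b, hb, h⟩ | ⟨c, hc, h⟩)
    · exact le_antisymm (h ▸ body_le_pos I J r hb) (Fin.zero_le _)
    · exact le_antisymm ((body_le_neg I J r hc).trans (neg3_zero.2 h).le) (Fin.zero_le _)

/-- The operator is monotone in the information order. -/
theorem gam_mono (P : Program A) {I I' : Interp A} (h : InfoLE I I') :
    InfoLE (Gam P I) (Gam P I') := by
  classical
  intro a ha
  rcases v3_cases (Gam P I a) with h0 | h1 | h2
  · -- value 0
    let K : Interp A := fun a => if Gam P I a = 0 then 0 else 2
    have hK : IsModel P I' K := by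
      intro r hr
      by_cases hh : Gam P I r.head = 0
      · have hb : body I (Gam P I) r = 0 := by
          have := (gam_least P I).1 r hr
          rw [hh] at this
          exact le_antisymm this (Fin.zero_le _)
        have : body I' K r = 0 := by
          rw [body_eq_zero] at hb ⊢
          rcases hb with ⟨b, hb, hb0⟩ | ⟨c, hc, hc2⟩
          · exact Or.inl ⟨b, hb, by simp [K, hb0]⟩
          · refine Or.inr ⟨c, hc, ?_⟩
            rw [h c (by rw [hc2]; decide), hc2]
        rw [this]
        exact Fin.zero_le _
      · have : K r.head = 2 := by simp [K, hh]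
        rw [this]
        generalize body I' K r = x
        revert x; decide
    have := gam_le P I' K hK a
    rw [h0]
    have hKa : K a = 0 := by simp [K, h0]
    rw [hKa] at this
    exact le_antisymm this (Fin.zero_le _)
  · exact absurd h1 ha
  · -- value 2
    let K : Interp A := fun a => if Gam P I' a = 2 then 2 else 1
    have hK : IsModel P I K := by
      intro r hr
      by_cases hh : Gam P I' r.head = 2
      · have : K r.head = 2 := by simp [K, hh]
        rw [this]
        generalize body I K r = x
        revert x; decide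
      · have hK1 : K r.head = 1 := by simp [K, hh]
        rw [hK1]
        apply le_one_of_ne_two
        intro hb
        rw [body_eq_two] at hb
        apply hh
        apply eq_two_of_two_le
        have hb' : body I' (Gam P I') r = 2 := by
          rw [body_eq_two]
          refine ⟨fun b hb1 => ?_, fun c hc => ?_⟩
          · have := hb.1 b hb1
            by_contra hne
            simp [K, hne] at this
          · rw [h c (by rw [hb.2 c hc]; decide), hb.2 c hc]
        rw [← hb']
        exact (gam_least P I').1 r hr
    have hle := gam_le P I K hK a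
    rw [h2] at hle
    have hKa : K a = 2 := eq_two_of_two_le hle
    rw [h2]
    by_contra hne
    simp [K, hne] at hKa

theorem info_trans {I J K : Interp A} (h1 : InfoLE I J) (h2 : InfoLE J K) : InfoLE I K := by
  intro a ha
  have e := h1 a ha
  rw [h2 a (by rw [e]; exact ha), e]

theorem info_antisymm {I J : Interp A} (h1 : InfoLE I J) (h2 : InfoLE J I) : I = J := by
  funext a
  by_cases ha : I a = 1
  · by_cases hb : J a = 1
    · rw [ha, hb]
    · exact h2 a hb
  · exact (h1 a ha).symm

variable [Finite A]

/-- Above every interpretation which is below its image there is a stable partial model. -/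
theorem exists_stable_above (P : Program A) (K₀ : Interp A) (h : InfoLE K₀ (Gam P K₀)) :
    ∃ K, Stable P K ∧ InfoLE K₀ K := by
  classical
  -- number of defined atoms
  let _ : Fintype A := Fintype.ofFinite A
  let f : Interp A → ℕ := fun K => (Finset.univ.filter fun a => K a ≠ 1).card
  have hf : ∀ K, f K ≤ Fintype.card A := fun K => Finset.card_le_univ _
  let S : Set (Interp A) := {K | InfoLE K₀ K ∧ InfoLE K (Gam P K)}
  have hne : ∃ n, ∃ K ∈ S, f K + n = Fintype.card A :=
    ⟨Fintype.card A - f K₀, K₀, ⟨fun _ _ => rfl, h⟩, by have := hf K₀; omega⟩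
  obtain ⟨K, hK, hn⟩ := Nat.find_spec hne
  refine ⟨K, ?_, hK.1⟩
  rw [stable_iff]
  by_contra hcon
  have hS : Gam P K ∈ S := ⟨info_trans hK.1 hK.2, gam_mono P hK.2⟩
  have hlt : f K < f (Gam P K) := by
    apply Finset.card_lt_card
    refine ⟨fun a ha => ?_, fun hsub => ?_⟩
    · simp only [Finset.mem_filter, Finset.mem_univ, true_and] at ha ⊢
      rw [hK.2 a ha]
      exact ha
    · apply hcon
      refine (info_antisymm hK.2 ?_).symm
      intro a ha
      have : a ∈ Finset.univ.filter fun a => K a ≠ 1 := hsub (by simpa using ha)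
      simp only [Finset.mem_filter, Finset.mem_univ, true_and] at this
      exact (hK.2 a this).symm
  have hmin := Nat.find_min hne (m := Fintype.card A - f (Gam P K)) (by
    have := hf (Gam P K)
    omega)
  exact hmin ⟨Gam P K, hS, by have := hf (Gam P K); omega⟩

/-- Compatible stable partial models have a common upper bound. -/
theorem join_stable (P : Program A) {I J : Interp A} (hI : Stable P I) (hJ : Stable P J)
    (hc : ∀ a, I a ≠ 1 → J a ≠ 1 → I a = J a) :
    ∃ K, Stable P K ∧ InfoLE I K ∧ InfoLE J K := by
  classical
  let K₀ : Interp A := fun a => if I a = 1 then J a else I a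
  have h1 : InfoLE I K₀ := fun a ha => by simp [K₀, ha]
  have h2 : InfoLE J K₀ := fun a ha => by
    by_cases hi : I a = 1
    · simp [K₀, hi]
    · simp only [K₀, hi, if_false]
      exact hc a hi ha
  have h3 : InfoLE K₀ (Gam P K₀) := by
    intro a ha
    by_cases hi : I a = 1
    · have hJa : K₀ a = J a := by simp [K₀, hi]
      rw [hJa] at ha ⊢
      have := gam_mono P h2
      rw [(stable_iff P J).1 hJ] at this
      exact this a ha
    · have hIa : K₀ a = I a := by simp [K₀, hi]
      rw [hIa]
      have := gam_mono P h1
      rw [(stable_iff P I).1 hI] at this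
      exact this a hi
  obtain ⟨K, hK, hle⟩ := exists_stable_above P K₀ h3
  exact ⟨K, hK, info_trans h1 hle, info_trans h2 hle⟩

omit [Finite A] in
theorem stable_supported_two {P : Program A} {I : Interp A} (h : Stable P I) {a : A}
    (ha : I a = 2) : ∃ r ∈ P, r.head = a ∧ body I I r = 2 := by
  classical
  by_contra hcon
  push Not at hcon
  let K : Interp A := fun b => if b = a then 1 else I b
  have hle : ∀ b, K b ≤ I b := by
    intro b
    by_cases hb : b = a
    · subst hb
      simp [K, ha]
    · simp [K, hb]
  have hK : IsModel P I K := by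
    intro r hr
    have h1 : body I K r ≤ body I I r := body_mono I r hle
    by_cases hb : r.head = a
    · have hKh : K r.head = 1 := by simp [K, hb]
      rw [hKh]
      exact h1.trans (le_one_of_ne_two (hcon r hr hb))
    · have hKh : K r.head = I r.head := by simp [K, hb]
      rw [hKh]
      exact h1.trans (h.1 r hr)
  have h1 := h.2 K hK a
  simp only [K, if_true, ha] at h1
  exact absurd h1 (by decide)

omit [Finite A] in
/-- The set of conflicts of two stable partial models is closed under suitable predecessors. -/
theorem conflict_step {P : Program A} {I J : Interp A} (hI : Stable P I) (hJ : Stable P J) {a : A}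
    (h1 : I a = 2) (h0 : J a = 0) :
    ∃ s b, Arc P s b a ∧
      (if s then I b = 2 ∧ J b = 0 else I b = 0 ∧ J b = 2) := by
  obtain ⟨r, hr, hh, hb⟩ := stable_supported_two hI h1
  have hJb : body J J r = 0 := by
    have := hJ.1 r hr
    rw [hh, h0] at this
    exact le_antisymm this (Fin.zero_le _)
  rw [body_eq_two] at hb
  rw [body_eq_zero] at hJb
  rcases hJb with ⟨b, hb1, hb2⟩ | ⟨c, hc1, hc2⟩
  · exact ⟨true, b, ⟨r, hr, hh, by simpa using hb1⟩, by simpa using ⟨hb.1 b hb1, hb2⟩⟩
  · exact ⟨false, c, ⟨r, hr, hh, by simpa using hc1⟩, by simpa using ⟨hb.2 c hc1, hc2⟩⟩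

omit [Finite A] in
theorem iff_aux1 {X Y Z : Prop} (h : ¬ (X ↔ Y)) : (¬ (Y ↔ Z)) ↔ (X ↔ Z) := by tauto

omit [Finite A] in
theorem iff_aux2 {X Y Z : Prop} (h : X ↔ Y) : (Y ↔ Z) ↔ (X ↔ Z) := by tauto

omit [Finite A] in
/-- The cycle given by the iterates of a predecessor function. -/
theorem cycle_of (P : Program A) (f : A → A) (σ : A → Bool) (a : A) {p : ℕ} (hp : 0 < p)
    (hpa : f^[p] a = a) (hinj : ∀ i j, i < p → j < p → f^[i] a = f^[j] a → i = j)
    (harc : ∀ k, Arc P (σ (f^[k] a)) (f^[k + 1] a) (f^[k] a)) :
    ∃ C : Cycle P, C.n = p ∧ (∀ i, C.v i = f^[p - i] a) ∧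
      (∀ i, C.s i = σ (f^[p - 1 - i] a)) := by
  refine ⟨{ n := p, pos := hp, v := fun i => f^[p - i] a, s := fun i => σ (f^[p - 1 - i] a)
            inj := ?_, closed := ?_, arc := ?_ }, rfl, fun _ => rfl, fun _ => rfl⟩
  · intro i j hi hj h
    rcases Nat.eq_zero_or_pos i with rfl | hi0
    · rcases Nat.eq_zero_or_pos j with rfl | hj0
      · rfl
      · rw [Nat.sub_zero, hpa] at h
        have := hinj 0 (p - j) hp (by omega) h
        omega
    · rcases Nat.eq_zero_or_pos j with rfl | hj0
      · rw [Nat.sub_zero, hpa] at h
        have := hinj (p - i) 0 (by omega) hp h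
        omega
      · have := hinj (p - i) (p - j) (by omega) (by omega) h
        omega
  · rw [Nat.sub_self, Nat.sub_zero, hpa]
    rfl
  · intro i hi
    have e1 : p - i = (p - 1 - i) + 1 := by omega
    have e2 : p - (i + 1) = p - 1 - i := by omega
    rw [e2, e1]
    exact harc _

/-- Two stable partial models without conflict on a set meeting every even cycle have no conflict
at all. -/
theorem no_conflict {P : Program A} {U : Finset A} (hU : MeetsEven P U) {I J : Interp A}
    (hI : Stable P I) (hJ : Stable P J)
    (hc : ∀ u ∈ U, I u ≠ 1 → J u ≠ 1 → I u = J u) :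
    ∀ a, I a ≠ 1 → J a ≠ 1 → I a = J a := by
  classical
  by_contra hcon
  push Not at hcon
  obtain ⟨a₀, ha1, ha2, ha3⟩ := hcon
  let C : A → Prop := fun a => (I a = 2 ∧ J a = 0) ∨ (I a = 0 ∧ J a = 2)
  have hC₀ : C a₀ := by
    rcases v3_cases (I a₀) with h | h | h <;> rcases v3_cases (J a₀) with h' | h' | h' <;>
      simp_all [C]
  have hstep : ∀ a, C a → ∃ b, ∃ s, C b ∧ Arc P s b a ∧ (s = true ↔ (I b = 2 ↔ I a = 2)) := by
    rintro a (⟨h1, h2⟩ | ⟨h1, h2⟩)
    · obtain ⟨s, b, harc, hb⟩ := conflict_step hI hJ h1 h2
      cases s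
      · simp only [Bool.false_eq_true, if_false] at hb
        exact ⟨b, false, Or.inr hb, harc, by simp [hb.1, h1]⟩
      · simp only [if_true] at hb
        exact ⟨b, true, Or.inl hb, harc, by simp [hb.1, h1]⟩
    · obtain ⟨s, b, harc, hb⟩ := conflict_step hJ hI h2 h1
      cases s
      · simp only [Bool.false_eq_true, if_false] at hb
        exact ⟨b, false, Or.inl ⟨hb.2, hb.1⟩, harc, by simp [hb.2, h1]⟩
      · simp only [if_true] at hb
        exact ⟨b, true, Or.inr ⟨hb.2, hb.1⟩, harc, by simp [hb.2, h1]⟩
  let f : A → A := fun a => if h : C a then (hstep a h).choose else a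
  have hf : ∀ a, C a → ∃ s, C (f a) ∧ Arc P s (f a) a ∧ (s = true ↔ (I (f a) = 2 ↔ I a = 2)) := by
    intro a ha
    have : f a = (hstep a ha).choose := by simp [f, ha]
    rw [this]
    exact (hstep a ha).choose_spec
  let σ : A → Bool := fun a => if h : C a then (hf a h).choose else true
  have hσ : ∀ a, C a → C (f a) ∧ Arc P (σ a) (f a) a ∧
      (σ a = true ↔ (I (f a) = 2 ↔ I a = 2)) := by
    intro a ha
    have : σ a = (hf a ha).choose := by simp [σ, ha]
    rw [this]
    exact (hf a ha).choose_spec
  -- a periodic point
  obtain ⟨m, n, hmn, heq⟩ := Finite.exists_ne_map_eq_of_infinite (fun k : ℕ => f^[k] a₀)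
  have hCk : ∀ k, C (f^[k] a₀) := by
    intro k
    induction k with
    | zero => exact hC₀
    | succ k ih =>
      rw [Function.iterate_succ_apply']
      exact (hσ _ ih).1
  obtain ⟨a, hCa, hper⟩ : ∃ a, C a ∧ a ∈ Function.periodicPts f := by
    have key : ∀ m n : ℕ, m < n → f^[m] a₀ = f^[n] a₀ → ∃ a, C a ∧ a ∈ Function.periodicPts f := by
      intro m n h heq
      refine ⟨f^[m] a₀, hCk m, n - m, by omega, ?_⟩
      change f^[n - m] (f^[m] a₀) = f^[m] a₀
      rw [← Function.iterate_add_apply, Nat.sub_add_cancel h.le, heq]
    rcases lt_or_gt_of_ne hmn with h | h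
    · exact key m n h heq
    · exact key n m h heq.symm
  have hCk : ∀ k, C (f^[k] a) := by
    intro k
    induction k with
    | zero => exact hCa
    | succ k ih =>
      rw [Function.iterate_succ_apply']
      exact (hσ _ ih).1
  have hp : 0 < Function.minimalPeriod f a := Function.minimalPeriod_pos_of_mem_periodicPts hper
  generalize hpe : Function.minimalPeriod f a = p at hp
  have hpa : f^[p] a = a := by
    rw [← hpe]
    exact Function.iterate_minimalPeriod
  have hinj : ∀ i j, i < p → j < p → f^[i] a = f^[j] a → i = j := by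
    intro i j hi hj h
    rw [← hpe] at hi hj
    exact (Function.iterate_eq_iterate_iff_of_lt_minimalPeriod hi hj).1 h
  obtain ⟨cyc, hn, hv, hs⟩ := cycle_of P f σ a hp hpa hinj (fun k => by
    rw [Function.iterate_succ_apply']
    exact (hσ _ (hCk _)).2.1)
  have hparity : ∀ k, (Even ((Finset.range k).filter fun i => σ (f^[i] a) = false).card ↔
      (I (f^[k] a) = 2 ↔ I a = 2)) := by
    intro k
    induction k with
    | zero => simp
    | succ k ih =>
      have h3 := (hσ _ (hCk k)).2.2
      rw [Function.iterate_succ_apply', Finset.range_add_one, Finset.filter_insert]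
      cases hs : σ (f^[k] a)
      · rw [hs] at h3
        rw [if_pos rfl, Finset.card_insert_of_notMem (by simp), Nat.even_add_one, ih]
        simp only [Bool.false_eq_true, false_iff] at h3
        exact iff_aux1 h3
      · rw [hs] at h3
        rw [if_neg (by simp), ih]
        simp only [true_iff] at h3
        exact iff_aux2 h3
  have heven : cyc.Even := by
    have h1 := (hparity p).2 (by rw [hpa])
    have h2 : ((Finset.range p).filter fun i => σ (f^[p - 1 - i] a) = false).card =
        ((Finset.range p).filter fun i => σ (f^[i] a) = false).card := by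
      rw [Finset.card_filter, Finset.card_filter]
      exact Finset.sum_range_reflect (fun i => if σ (f^[i] a) = false then 1 else 0) p
    unfold Cycle.Even
    rw [hn]
    simp only [hs]
    rw [h2]
    exact h1
  obtain ⟨i, hi, hiU⟩ := hU cyc heven
  have hv : C (cyc.v i) := by
    rw [hv]
    exact hCk _
  have := hc _ hiU
  rcases hv with ⟨h1, h2⟩ | ⟨h1, h2⟩
  · have := this (by rw [h1]; decide) (by rw [h2]; decide)
    rw [h1, h2] at this
    exact absurd this (by decide)
  · have := this (by rw [h1]; decide) (by rw [h2]; decide)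
    rw [h1, h2] at this
    exact absurd this (by decide)

/-- Two distinct regular models have opposite values in `{0, 1}` at some atom of `U`. -/
theorem regular_conflict {P : Program A} {U : Finset A} (hU : MeetsEven P U) {I J : Interp A}
    (hI : Regular P I) (hJ : Regular P J) (hne : I ≠ J) :
    ∃ u ∈ U, I u ≠ 1 ∧ J u ≠ 1 ∧ I u ≠ J u := by
  by_contra hcon
  push Not at hcon
  obtain ⟨K, hK, h1, h2⟩ := join_stable P hI.1 hJ.1
    (no_conflict hU hI.1 hJ.1 (fun u hu => hcon u hu))
  apply hne
  rw [info_antisymm h1 (hI.2 K hK h1), info_antisymm h2 (hJ.2 K hK h2)]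

end

/-- Let `P` be a finite ground normal program over the finite set `A` of atoms and let `U` meet
every even cycle of its atom dependency graph. Then `P` has at most `2 ^ |U|` regular models.
Moreover any two distinct regular models take opposite values in `{0, 1}` at some atom of `U`. -/
theorem result (A : Type) [Finite A] (P : Program A) (U : Finset A) (hU : MeetsEven P U) :
    {I : Interp A | Regular P I}.ncard ≤ 2 ^ U.card ∧
    ∀ I J, Regular P I → Regular P J → I ≠ J →
      ∃ u ∈ U, (I u = 0 ∧ J u = 2) ∨ (I u = 2 ∧ J u = 0) := by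
  classical
  have key : ∀ I J, Regular P I → Regular P J → I ≠ J →
      ∃ u ∈ U, (I u = 0 ∧ J u = 2) ∨ (I u = 2 ∧ J u = 0) := by
    intro I J hI hJ hne
    obtain ⟨u, hu, h1, h2, h3⟩ := regular_conflict hU hI hJ hne
    refine ⟨u, hu, ?_⟩
    rcases v3_cases (I u) with h | h | h <;> rcases v3_cases (J u) with h' | h' | h' <;>
      simp_all
  refine ⟨?_, key⟩
  let g : Interp A → (U → Bool) := fun I u => decide (I u.1 = 2)
  have hg : Set.InjOn g {I : Interp A | Regular P I} := by
    intro I hI J hJ h
    by_contra hne
    obtain ⟨u, hu, h1⟩ := key I J hI hJ hne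
    have h2 := congrFun h ⟨u, hu⟩
    rcases h1 with ⟨h3, h4⟩ | ⟨h3, h4⟩
    · simp [g, h3, h4] at h2
    · simp [g, h3, h4] at h2
  have h1 := Set.ncard_le_ncard_of_injOn g (t := Set.univ) (fun _ _ => Set.mem_univ _) hg
    (Set.toFinite _)
  rw [Set.ncard_univ, Nat.card_eq_fintype_card, Fintype.card_fun, Fintype.card_bool,
    Fintype.card_coe] at h1
  exact h1

end Pool.Agent.Results.MP_9cfc50_lc.RegularModels
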